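import Pool.Agent.N637.K21.Stm3
import Pool.Agent.N873.F15.Fu

/-!
# Project K21: the density of the family
-/

set_option autoImplicit false

open Finset Filter Topology

open scoped Classical

namespace Pool.Agent.N340.K21

open Pool.Agent.N873.F15.Dn (cnt cnt_filter cnt_or cnt_congr cnt_mul dens_mul sf_dens' ep)
open Pool.Agent.N969.P15 (Ev)
open Pool.Agent.N916.TE (FD)
open Pool.Agent.N637.K21 (FamN U_DENS)

lemma cnt_sum {ι : Type} (C : Finset ι) (P : ι → ℕ → Prop)
    (h : ∀ c ∈ C, ∀ c' ∈ C, c ≠ c' → ∀ n, P c n → ¬ P c' n) (X : ℕ) :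
    cnt (fun n => ∃ c ∈ C, P c n) X = ∑ c ∈ C, cnt (P c) X := by
  simp only [cnt_filter]
  rw [← Finset.card_biUnion]
  · congr 1
    ext n
    simp only [Finset.mem_filter, Finset.mem_biUnion]
    constructor
    · rintro ⟨h1, c, hc, h2⟩
      exact ⟨c, hc, h1, h2⟩
    · rintro ⟨c, hc, h1, h2⟩
      exact ⟨h1, c, hc, h2⟩
  · intro c hc c' hc' hcc
    show Disjoint ((Icc 1 X).filter (P c)) ((Icc 1 X).filter (P c'))
    rw [Finset.disjoint_filter]
    exact fun n _ h1 => h c hc c' hc' hcc n h1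

/-- the condition on the class of `k` modulo `84` -/
def T (c r : ℕ) : Prop := (c % 2 = 1 → c * r % 4 = 3) ∧ (c % 8 = 4 → c * r % 16 = 4) ∧
  c * r % 3 ≠ 2 ∧ (c * r % 7 = 0 ∨ c * r % 7 = 3 ∨ c * r % 7 = 5 ∨ c * r % 7 = 6)

instance (c r : ℕ) : Decidable (T c r) := by unfold T; infer_instance

/-- the classes -/
def R (c : ℕ) : Finset ℕ := (range 84).filter fun r => Nat.Coprime r 84 ∧ T c r

/-- the cofactors -/
def C : Finset ℕ := {1, 3, 7, 21, 4, 12, 28, 84, 8, 24, 56, 168}

/-- the pieces -/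
def P (c n : ℕ) : Prop := ∃ k, n = c * k ∧ (Squarefree k ∧ k % 84 ∈ R c)

lemma T_iff {c k : ℕ} (hc : c ∈ C) : T c (k % 84) ↔ T c k := by
  simp only [C, Finset.mem_insert, Finset.mem_singleton] at hc
  unfold T
  rcases hc with rfl | rfl | rfl | rfl | rfl | rfl | rfl | rfl | rfl | rfl | rfl | rfl <;>
  · norm_num <;> omega

lemma cop_mod (k : ℕ) : Nat.Coprime (k % 84) 84 ↔ Nat.Coprime k 84 := by
  unfold Nat.Coprime
  rw [Nat.gcd_comm k 84, Nat.gcd_rec 84 k]

lemma mem_R {c k : ℕ} (hc : c ∈ C) : k % 84 ∈ R c ↔ Nat.Coprime k 84 ∧ T c k := by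
  unfold R
  rw [mem_filter, mem_range, cop_mod, T_iff hc]
  constructor
  · exact fun h => h.2
  · exact fun h => ⟨Nat.mod_lt _ (by norm_num), h⟩

lemma split_odd {o : ℕ} (ho : Squarefree o) (h2 : o % 2 = 1) :
    ∃ g k, (g = 1 ∨ g = 3 ∨ g = 7 ∨ g = 21) ∧ o = g * k ∧ Squarefree k ∧ Nat.Coprime k 84 := by
  have hg : Nat.gcd o 21 ∣ 21 := Nat.gcd_dvd_right _ _
  have hg' : Nat.gcd o 21 ∈ Nat.divisors 21 := Nat.mem_divisors.2 ⟨hg, by norm_num⟩
  have h21 : Nat.divisors 21 = {1, 3, 7, 21} := by decide +kernel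
  rw [h21] at hg'
  simp only [Finset.mem_insert, Finset.mem_singleton] at hg'
  have hk : o = Nat.gcd o 21 * (o / Nat.gcd o 21) := (Nat.mul_div_cancel' (Nat.gcd_dvd_left _ _)).symm
  refine ⟨Nat.gcd o 21, o / Nat.gcd o 21, hg', hk, ?_, ?_⟩
  · exact ho.squarefree_of_dvd ⟨Nat.gcd o 21, by rw [mul_comm]; exact hk⟩
  · have h1 := Nat.coprime_div_gcd_of_squarefree ho (n := 21) (by norm_num)
    have h3 : Nat.Coprime (o / Nat.gcd o 21) 2 := by
      rw [Nat.coprime_two_right]
      rw [← Nat.not_even_iff_odd]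
      intro he
      have : Even o := by rw [hk]; exact he.mul_left _
      rw [Nat.even_iff] at this
      omega
    rw [show (84 : ℕ) = 2 ^ 2 * 21 by norm_num]
    exact Nat.Coprime.mul_right (h3.pow_right 2) h1

lemma fam_iff (n : ℕ) : FamN n ↔ ∃ c ∈ C, P c n := by
  constructor
  · rintro ⟨h1, h2, h3⟩
    have key : ∀ s o : ℕ, (s = 1 ∨ s = 4 ∨ s = 8) → n = s * o → Squarefree o → o % 2 = 1 →
        (s = 1 → n % 4 = 3) → (s = 4 → o % 4 = 1) → ∃ c ∈ C, P c n := by
      intro s o hs hn ho hodd hs1 hs4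
      obtain ⟨g, k, hg, hgk, hk, hc⟩ := split_odd ho hodd
      have hcC : s * g ∈ C := by
        simp only [C, Finset.mem_insert, Finset.mem_singleton]
        rcases hs with rfl | rfl | rfl <;> rcases hg with rfl | rfl | rfl | rfl <;> norm_num
      have e : s * g * k = n := by rw [hn, hgk, mul_assoc]
      refine ⟨s * g, hcC, k, e.symm, hk, (mem_R hcC).2 ⟨hc, ?_⟩⟩
      unfold T
      rw [e]
      refine ⟨fun h => ?_, fun h => ?_, h2, h3⟩
      · apply hs1
        rcases hs with rfl | rfl | rfl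
        · rfl
        · omega
        · omega
      · have h4 : s = 4 := by
          rcases hs with rfl | rfl | rfl
          · rcases hg with rfl | rfl | rfl | rfl <;> norm_num at h
          · rfl
          · omega
        have := hs4 h4
        rw [hn, h4]
        omega
    rcases h1 with ⟨h4, h5⟩ | ⟨m, hm, h4, h5⟩
    · exact key 1 n (Or.inl rfl) (one_mul n).symm h4 (by omega) (fun _ => h5) (fun h => by omega)
    · rcases h5 with h5 | h5
      · exact key 4 m (by norm_num) hm h4 (by omega) (fun h => by omega) (fun _ => h5)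
      · obtain ⟨l, rfl⟩ : 2 ∣ m := by omega
        rw [Nat.squarefree_mul_iff] at h4
        exact key 8 l (by norm_num) (by omega) h4.2.2 (by omega) (fun h => by omega)
          (fun h => by omega)
  · rintro ⟨c, hc, k, hn, hk, hr⟩
    rw [mem_R hc] at hr
    obtain ⟨hcop, hT1, hT2, hT3, hT4⟩ := hr
    rw [← hn] at hT1 hT2 hT3 hT4
    refine ⟨?_, hT3, hT4⟩
    have hkodd : k % 2 = 1 := by
      have : Nat.Coprime k 2 := Nat.Coprime.coprime_dvd_right (by norm_num) hcop
      rw [Nat.coprime_two_right, Nat.odd_iff] at this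
      exact this
    have hk3 : Nat.Coprime 3 k := (Nat.Coprime.coprime_dvd_right (by norm_num) hcop).symm
    have hk7 : Nat.Coprime 7 k := (Nat.Coprime.coprime_dvd_right (by norm_num) hcop).symm
    have hk21 : Nat.Coprime 21 k := (Nat.Coprime.coprime_dvd_right (by norm_num) hcop).symm
    have hsq : ∀ g, (g = 1 ∨ g = 3 ∨ g = 7 ∨ g = 21) → Squarefree (g * k) := by
      rintro g (rfl | rfl | rfl | rfl)
      · rwa [one_mul]
      · exact (Nat.squarefree_mul hk3).2 ⟨Nat.prime_three.squarefree, hk⟩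
      · exact (Nat.squarefree_mul hk7).2 ⟨(by norm_num : Nat.Prime 7).squarefree, hk⟩
      · refine (Nat.squarefree_mul hk21).2 ⟨?_, hk⟩
        rw [show 21 = 3 * 7 by norm_num, Nat.squarefree_mul (by norm_num)]
        exact ⟨Nat.prime_three.squarefree, (by norm_num : Nat.Prime 7).squarefree⟩
    have odd1 : ∀ g, (g = 1 ∨ g = 3 ∨ g = 7 ∨ g = 21) → c = g → FD n := by
      intro g hg hcg
      subst hcg
      refine Or.inl ⟨?_, hT1 ?_⟩
      · rw [hn]; exact hsq c hg
      · rcases hg with rfl | rfl | rfl | rfl <;> rfl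
    have odd4 : ∀ g, (g = 1 ∨ g = 3 ∨ g = 7 ∨ g = 21) → c = 4 * g → FD n := by
      intro g hg hcg
      have h16 := hT2 (by rcases hg with rfl | rfl | rfl | rfl <;> omega)
      have e : n = 4 * (g * k) := by rw [hn, hcg, mul_assoc]
      exact Or.inr ⟨g * k, e, hsq g hg, Or.inl (by omega)⟩
    have odd8 : ∀ g, (g = 1 ∨ g = 3 ∨ g = 7 ∨ g = 21) → c = 8 * g → FD n := by
      intro g hg hcg
      have e : n = 8 * (g * k) := by rw [hn, hcg, mul_assoc]
      have hodd : (g * k) % 2 = 1 := by
        rcases hg with rfl | rfl | rfl | rfl <;> omega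
      refine Or.inr ⟨2 * (g * k), by omega, ?_, Or.inr (by omega)⟩
      rw [Nat.squarefree_mul_iff]
      refine ⟨?_, Nat.prime_two.squarefree, hsq g hg⟩
      rw [Nat.coprime_two_left]
      exact Nat.odd_iff.2 hodd
    simp only [C, Finset.mem_insert, Finset.mem_singleton] at hc
    rcases hc with h | h | h | h | h | h | h | h | h | h | h | h
    · exact odd1 1 (by norm_num) h
    · exact odd1 3 (by norm_num) h
    · exact odd1 7 (by norm_num) h
    · exact odd1 21 (by norm_num) h
    · exact odd4 1 (by norm_num) h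
    · exact odd4 3 (by norm_num) h
    · exact odd4 7 (by norm_num) h
    · exact odd4 21 (by norm_num) h
    · exact odd8 1 (by norm_num) h
    · exact odd8 3 (by norm_num) h
    · exact odd8 7 (by norm_num) h
    · exact odd8 21 (by norm_num) h

lemma P_disj : ∀ c ∈ C, ∀ c' ∈ C, c ≠ c' → ∀ n, P c n → ¬ P c' n := by
  have key : ∀ c ∈ C, ∀ n, P c n → Nat.gcd n 168 = c := by
    rintro c hc n ⟨k, rfl, -, hr⟩
    rw [mem_R hc] at hr
    have h1 : Nat.Coprime k 168 := by
      rw [show (168 : ℕ) = 2 * 84 by norm_num]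
      exact Nat.Coprime.mul_right (Nat.Coprime.coprime_dvd_right (by norm_num) hr.1) hr.1
    rw [Nat.Coprime.gcd_mul_right_cancel c h1]
    clear hr h1 k
    revert c
    decide +kernel
  intro c hc c' hc' hcc n h h'
  exact hcc ((key c hc n h).symm.trans (key c' hc' n h'))

lemma ep84 : ep 84 = 32 / 49 := by
  unfold ep
  have : (84 : ℕ).primeFactors = {2, 3, 7} := by decide +kernel
  rw [this, Finset.prod_insert (by decide), Finset.prod_insert (by decide), Finset.prod_singleton]
  norm_num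

lemma dens_P {c : ℕ} (hc : c ∈ C) : Tendsto (fun X : ℕ => (cnt (P c) X : ℝ) / X) atTop
    (𝓝 (((R c).card : ℝ) * (7 / (64 * Real.pi ^ 2)) / c)) := by
  have hc0 : 0 < c := by
    revert c
    decide
  have h1 : Tendsto (fun X : ℕ => (cnt (fun k => Squarefree k ∧ k % 84 ∈ R c) X : ℝ) / X) atTop
      (𝓝 (((R c).card : ℝ) * (7 / (64 * Real.pi ^ 2)))) := by
    have h2 : Tendsto (fun X : ℕ => ∑ r ∈ R c, (cnt (fun k => Squarefree k ∧ k % 84 = r) X : ℝ) / X)
        atTop (𝓝 (∑ r ∈ R c, (6 / Real.pi ^ 2 / ep 84 / ((84 : ℕ) : ℝ)))) := by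
      refine tendsto_finsetSum _ fun r hr => ?_
      unfold R at hr
      rw [mem_filter, mem_range] at hr
      exact sf_dens' (by norm_num) hr.1 hr.2.1
    have e : ∑ r ∈ R c, (6 / Real.pi ^ 2 / ep 84 / ((84 : ℕ) : ℝ)) =
        ((R c).card : ℝ) * (7 / (64 * Real.pi ^ 2)) := by
      rw [Finset.sum_const, nsmul_eq_mul, ep84]
      congr 1
      have := Real.pi_ne_zero
      push_cast
      field_simp
      norm_num
    rw [e] at h2
    refine h2.congr fun X => ?_
    rw [← Finset.sum_div]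
    congr 1
    have e2 : cnt (fun k => Squarefree k ∧ k % 84 ∈ R c) X =
        cnt (fun k => ∃ r ∈ R c, Squarefree k ∧ k % 84 = r) X := by
      refine cnt_congr (fun k _ => ?_) X
      constructor
      · rintro ⟨h3, h4⟩
        exact ⟨_, h4, h3, rfl⟩
      · rintro ⟨r, h3, h4, rfl⟩
        exact ⟨h4, h3⟩
    rw [e2, cnt_sum (R c) (fun r k => Squarefree k ∧ k % 84 = r)]
    · push_cast
      rfl
    · rintro r _ r' _ hrr k ⟨-, h3⟩ ⟨-, h4⟩
      exact hrr (h3.symm.trans h4)
  exact dens_mul hc0 h1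

theorem t_DENS : U_DENS := by
  have h1 : Tendsto (fun X : ℕ => ∑ c ∈ C, (cnt (P c) X : ℝ) / X) atTop
      (𝓝 (∑ c ∈ C, ((R c).card : ℝ) * (7 / (64 * Real.pi ^ 2)) / c)) :=
    tendsto_finsetSum _ fun c hc => dens_P hc
  have e : ∑ c ∈ C, ((R c).card : ℝ) * (7 / (64 * Real.pi ^ 2)) / c =
      135 / (128 * Real.pi ^ 2) := by
    have r1 : (R 1).card = 3 := by decide +kernel
    have r3 : (R 3).card = 6 := by decide +kernel
    have r7 : (R 7).card = 6 := by decide +kernel
    have r21 : (R 21).card = 12 := by decide +kernel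
    have r4 : (R 4).card = 3 := by decide +kernel
    have r12 : (R 12).card = 6 := by decide +kernel
    have r28 : (R 28).card = 6 := by decide +kernel
    have r84 : (R 84).card = 12 := by decide +kernel
    have r8 : (R 8).card = 6 := by decide +kernel
    have r24 : (R 24).card = 12 := by decide +kernel
    have r56 : (R 56).card = 12 := by decide +kernel
    have r168 : (R 168).card = 24 := by decide +kernel
    unfold C
    rw [Finset.sum_insert (by decide), Finset.sum_insert (by decide), Finset.sum_insert (by decide),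
      Finset.sum_insert (by decide), Finset.sum_insert (by decide), Finset.sum_insert (by decide),
      Finset.sum_insert (by decide), Finset.sum_insert (by decide), Finset.sum_insert (by decide),
      Finset.sum_insert (by decide), Finset.sum_insert (by decide), Finset.sum_singleton,
      r1, r3, r7, r21, r4, r12, r28, r84, r8, r24, r56, r168]
    have := Real.pi_ne_zero
    push_cast
    field_simp
    norm_num
  rw [e] at h1
  unfold U_DENS
  refine h1.congr fun X => ?_
  rw [← Finset.sum_div]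
  congr 1
  have e2 : ((Finset.Icc 1 X).filter fun n => FamN n).card = cnt FamN X := by
    rw [cnt_filter]
  have e3 : cnt FamN X = cnt (fun n => ∃ c ∈ C, P c n) X := cnt_congr (fun n _ => fam_iff n) X
  rw [e2, e3, cnt_sum C P P_disj]
  push_cast
  rfl

end Pool.Agent.N340.K21
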